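import Pool.Agent.Helper13.RG.Stmts

set_option autoImplicit false

/-! # Transport of a place, finite orbits (TRP, ORB) -/

open scoped Classical

namespace Pool.Agent.Helper13.RG

open Pool.Agent.Helper14.BSC Pool.Agent.Helper13.ZL

theorem st_TRP : ST_TRP := by
  intro k Ω _ _ _ D p _ σ P τ G hG
  let φ' : P.C.comap G →+* ℂ_[p] :=
    { toFun := fun x => P.φ ⟨G x, x.2⟩
      map_one' := by
        rw [← map_one P.φ]
        congr 1
        exact Subtype.ext (map_one G)
      map_mul' := fun x y => by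
        rw [← map_mul P.φ]
        congr 1
        exact Subtype.ext (map_mul G _ _)
      map_zero' := by
        rw [← map_zero P.φ]
        congr 1
        exact Subtype.ext (map_zero G)
      map_add' := fun x y => by
        rw [← map_add P.φ]
        congr 1
        exact Subtype.ext (map_add G _ _) }
  have hφ : ∀ x : P.C.comap G, φ' x = P.φ ⟨G x, x.2⟩ := fun _ => rfl
  refine ⟨⟨P.C.comap G, φ', ?_, ?_, P.E, P.finE, ?_⟩, ?_⟩
  · intro c
    obtain ⟨h, hh⟩ := P.base (τ c)
    have h1 : algebraMap k (LL D) c ∈ P.C.comap G := by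
      rw [ValuationSubring.mem_comap, hG]
      exact h
    refine ⟨h1, ?_⟩
    rw [hφ, RingHom.comp_apply, ← hh]
    congr 1
    exact Subtype.ext (hG c)
  · intro x
    rw [hφ, P.ker]
    change (G (x : LL D) = 0 ∨ (G (x : LL D))⁻¹ ∉ P.C) ↔
      ((x : LL D) = 0 ∨ (x : LL D)⁻¹ ∉ P.C.comap G)
    rw [ValuationSubring.mem_comap, map_inv₀, map_eq_zero]
  · intro x hx M hM δ hδ c g hxg
    refine P.kum ⟨G x, x.2⟩ hx M hM δ hδ (τ c) (G g) ?_
    change G (x : LL D) = _
    rw [hxg, map_mul, map_pow, hG]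
  · intro x
    exact ⟨(ValuationSubring.mem_comap).symm, fun h hx => rfl⟩

theorem st_ORB : ST_ORB := by
  intro k Ω _ _ _ D x
  obtain ⟨E, hE⟩ := D.fin x
  -- the orbit is finite
  have hfin : (Set.range fun g : GG k Ω => D.s g x).Finite := by
    let r : GG k Ω → (E → Acl k Ω) := fun g a => g a
    have hr : (Set.range r).Finite := by
      have h1 : (Set.pi Set.univ (fun a : E =>
          (minpoly k (a : Acl k Ω)).rootSet (Acl k Ω))).Finite :=
        Set.Finite.pi fun a => Polynomial.rootSet_finite _ _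
      refine h1.subset ?_
      rintro _ ⟨g, rfl⟩ a _
      have hint : IsIntegral k (a : Acl k Ω) :=
        (Algebra.IsAlgebraic.isAlgebraic (a : Acl k Ω)).isIntegral
      rw [Polynomial.mem_rootSet]
      refine ⟨minpoly.ne_zero hint, ?_⟩
      change Polynomial.aeval (g (a : Acl k Ω)) (minpoly k (a : Acl k Ω)) = 0
      rw [Polynomial.aeval_algEquiv, AlgHom.comp_apply, minpoly.aeval]
      exact map_zero _
    let F : (E → Acl k Ω) → Ω := fun t =>
      if h : ∃ g, r g = t then D.s h.choose x else x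
    refine (hr.image F).subset ?_
    rintro _ ⟨g, rfl⟩
    refine ⟨r g, ⟨g, rfl⟩, ?_⟩
    have hex : ∃ g', r g' = r g := ⟨g, rfl⟩
    have h2 : F (r g) = D.s hex.choose x := dif_pos hex
    rw [h2]
    have h3 := hex.choose_spec
    set g' := hex.choose
    have h4 : D.s (g⁻¹ * g') x = x := by
      apply hE
      intro a ha
      have h5 : g' a = g a := congrFun h3 ⟨a, ha⟩
      rw [AlgEquiv.mul_apply, h5, ← AlgEquiv.mul_apply, inv_mul_cancel]
      rfl
    change D.s g' x = D.s g x
    have h6 : D.s g' x = D.s g (D.s (g⁻¹ * g') x) := by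
      rw [← AlgEquiv.mul_apply, ← map_mul, mul_inv_cancel_left]
    rw [h6, h4]
  refine ⟨hfin.toFinset, ?_, ?_⟩
  · intro y
    rw [Set.Finite.mem_toFinset]
    rfl
  · intro g _
    rw [map_prod]
    refine Finset.prod_bij (fun y _ => D.s g y) ?_ ?_ ?_ ?_
    · intro y hy
      rw [Set.Finite.mem_toFinset] at hy ⊢
      obtain ⟨h, rfl⟩ := hy
      refine ⟨g * h, ?_⟩
      change D.s (g * h) x = D.s g (D.s h x)
      rw [map_mul, AlgEquiv.mul_apply]
    · intro y _ z _ hyz
      exact (D.s g).injective hyz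
    · intro y hy
      rw [Set.Finite.mem_toFinset] at hy
      obtain ⟨h, rfl⟩ := hy
      refine ⟨D.s (g⁻¹ * h) x, ?_, ?_⟩
      · rw [Set.Finite.mem_toFinset]
        exact ⟨g⁻¹ * h, rfl⟩
      · rw [← AlgEquiv.mul_apply, ← map_mul, mul_inv_cancel_left]
    · intro y _
      rfl

end Pool.Agent.Helper13.RG
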